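import Pool.Agent.helper10.QT.SpecZ

/-!
# Row bq:GQL
-/

set_option autoImplicit false

namespace Pool.Agent.AT

open Finset Pool.Agent.helper85.FC

theorem GQL_nd (l : ℕ) (hl : l.Prime) (v : ℚ) (hv : v ≠ 0) (h : padicValRat l v = 0) :
    ¬ l ∣ v.num.natAbs ∧ ¬ l ∣ v.den := by
  have hF := Fact.mk hl
  have h1 : (padicValNat l v.num.natAbs : ℤ) - padicValNat l v.den = 0 := h
  have hnum : v.num.natAbs ≠ 0 := by
    rw [Int.natAbs_ne_zero]
    exact Rat.num_ne_zero.2 hv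
  have hcop : Nat.Coprime v.num.natAbs v.den := v.reduced
  constructor
  · intro hd
    have h2 := one_le_padicValNat_of_dvd hnum hd
    have h3 : l ∣ v.den := dvd_of_one_le_padicValNat (by omega)
    exact hl.one_lt.ne' (Nat.dvd_one.1 (hcop ▸ Nat.dvd_gcd hd h3))
  · intro hd
    have h2 := one_le_padicValNat_of_dvd v.den_nz hd
    have h3 : l ∣ v.num.natAbs := dvd_of_one_le_padicValNat (by omega)
    exact hl.one_lt.ne' (Nat.dvd_one.1 (hcop ▸ Nat.dvd_gcd h3 hd))

/-- a common denominator -/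
theorem GQL_D (c : ℤ) (S : Finset ℚˣ) (hS : ∀ u ∈ S, u ∈ Gc c) :
    ∃ (D : ℕ) (s : ℚˣ → ℕ), 0 < D ∧ ∀ u ∈ S, (s u : ℚ) = D * (u : ℚ) ∧ 0 < s u ∧
      ∀ l : ℕ, l.Prime → (l : ℤ) ∣ c → ¬ l ∣ s u := by
  classical
  refine ⟨∏ u ∈ S, (u : ℚ).den, fun u => (((∏ u ∈ S, (u : ℚ).den : ℕ) : ℚ) * (u : ℚ)).num.toNat,
    Finset.prod_pos fun u _ => (u : ℚ).den_pos, ?_⟩
  intro u hu
  obtain ⟨e, he⟩ : (u : ℚ).den ∣ ∏ u ∈ S, (u : ℚ).den := Finset.dvd_prod_of_mem (fun u : ℚˣ => (u : ℚ).den) hu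
  have hpos : 0 < (u : ℚ) := (hS u hu).1
  have hnum : 0 < (u : ℚ).num := Rat.num_pos.2 hpos
  have hDpos : 0 < ∏ u ∈ S, (u : ℚ).den := Finset.prod_pos fun u _ => (u : ℚ).den_pos
  have he0 : 0 < e := by
    rcases Nat.eq_zero_or_pos e with h | h
    · rw [h, mul_zero] at he
      omega
    · exact h
  have h1 : ((∏ u ∈ S, (u : ℚ).den : ℕ) : ℚ) * (u : ℚ) = (((e : ℤ) * (u : ℚ).num : ℤ) : ℚ) := by
    rw [he]
    push_cast
    have h2 : ((u : ℚ).den : ℚ) * (u : ℚ) = (u : ℚ).num := Rat.den_mul_eq_num _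
    calc ((u : ℚ).den : ℚ) * (e : ℚ) * (u : ℚ) = (e : ℚ) * (((u : ℚ).den : ℚ) * (u : ℚ)) := by ring
      _ = _ := by rw [h2]
  have h3 : 0 < (e : ℤ) * (u : ℚ).num := mul_pos (by exact_mod_cast he0) hnum
  have h4 : ((((∏ u ∈ S, (u : ℚ).den : ℕ) : ℚ) * (u : ℚ)).num.toNat : ℤ) = (e : ℤ) * (u : ℚ).num := by
    rw [h1, Rat.num_intCast, Int.toNat_of_nonneg h3.le]
  refine ⟨?_, ?_, ?_⟩
  · rw [h1, ← h4]
    push_cast
    rfl
  · have : (0 : ℤ) < ((((∏ u ∈ S, (u : ℚ).den : ℕ) : ℚ) * (u : ℚ)).num.toNat : ℤ) := by rw [h4]; exact h3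
    exact_mod_cast this
  · intro l hl hlc hd
    have hd' : (l : ℤ) ∣ ((((∏ u ∈ S, (u : ℚ).den : ℕ) : ℚ) * (u : ℚ)).num.toNat : ℤ) := by exact_mod_cast hd
    rw [h4] at hd'
    rcases Int.Prime.dvd_mul' hl hd' with h5 | h5
    · have h6 : l ∣ ∏ u ∈ S, (u : ℚ).den := by
        rw [he]
        exact Dvd.dvd.mul_left (by exact_mod_cast h5) _
      obtain ⟨v, hv, h7⟩ := (Prime.dvd_finsetProd_iff hl.prime _).1 h6
      exact (GQL_nd l hl (v : ℚ) v.ne_zero ((hS v hv).2 l hl hlc)).2 h7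
    · exact (GQL_nd l hl (u : ℚ) u.ne_zero ((hS u hu).2 l hl hlc)).1 (Int.natCast_dvd.1 h5)

theorem GQL (h1 : GQ1_stmt) : GQL_stmt := by
  classical
  obtain ⟨hg1, -, hg3⟩ := h1
  intro k m hk hm hB
  obtain ⟨K, hK⟩ := hB
  refine ⟨K, ?_⟩
  intro c hc g X hg hX hXG hdis
  by_cases hcoll : ∃ p q, p ≠ q ∧ ∃ i j, ∃ x ∈ X i, ∃ y ∈ X j, g p * x = g q * y
  · right
    obtain ⟨p, q, hpq, i, j, x, hx, y, hy, he⟩ := hcoll
    refine ⟨p, q, hpq, i, j, x, hx, y, hy, ?_⟩
    rw [he, div_self']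
    simpa using hg1 c
  push Not at hcoll
  -- the common denominator
  let S : Finset ℚˣ := Finset.univ.biUnion fun p : Fin m => Finset.univ.biUnion fun i : Fin k => (X i).image fun x => g p * x
  have hmemS : ∀ (p : Fin m) (i : Fin k), ∀ x ∈ X i, g p * x ∈ S := by
    intro p i x hx
    exact Finset.mem_biUnion.2 ⟨p, Finset.mem_univ _, Finset.mem_biUnion.2 ⟨i, Finset.mem_univ _,
      Finset.mem_image_of_mem _ hx⟩⟩
  have hSG : ∀ u ∈ S, u ∈ Gc c := by
    intro u hu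
    obtain ⟨p, -, hu⟩ := Finset.mem_biUnion.1 hu
    obtain ⟨i, -, hu⟩ := Finset.mem_biUnion.1 hu
    obtain ⟨x, hx, rfl⟩ := Finset.mem_image.1 hu
    exact (Gc c).mul_mem (hg p) (hXG i x hx)
  obtain ⟨D, s, hD0, hs⟩ := GQL_D c S hSG
  have hDq : (D : ℚ) ≠ 0 := by exact_mod_cast hD0.ne'
  -- the clusters
  let H : Fin (m * k) → Finset (ℕ × ℤ) := fun a =>
    (X (finProdFinEquiv.symm a).2).image fun x => (s (g (finProdFinEquiv.symm a).1 * x), c)
  have hsinj : ∀ u ∈ S, ∀ v ∈ S, s u = s v → u = v := by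
    intro u hu v hv he
    have e1 := (hs u hu).1
    rw [he, (hs v hv).1] at e1
    exact (Units.ext (mul_left_cancel₀ hDq e1)).symm
  have hcardH : ∀ a, K ≤ #(H a) := by
    intro a
    show K ≤ #((X (finProdFinEquiv.symm a).2).image fun x => (s (g (finProdFinEquiv.symm a).1 * x), c))
    rw [Finset.card_image_of_injOn]
    · exact hX _
    · intro x hx y hy he
      have h2 := (Prod.ext_iff.1 he).1
      exact mul_left_cancel (hsinj _ (hmemS _ _ x hx) _ (hmemS _ _ y hy) h2)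
  have hform : ∀ f ∈ Fintype.piFinset H, ∀ a, ∃ x ∈ X (finProdFinEquiv.symm a).2,
      f a = (s (g (finProdFinEquiv.symm a).1 * x), c) := by
    intro f hf a
    obtain ⟨x, hx, he⟩ := Finset.mem_image.1 (Fintype.mem_piFinset.1 hf a)
    exact ⟨x, hx, he.symm⟩
  obtain ⟨f, hf, hmany⟩ := hK H hcardH (by
    intro a w hw
    obtain ⟨x, hx, rfl⟩ := Finset.mem_image.1 hw
    exact (hs _ (hmemS _ _ x hx)).2.1) (by
    intro f hf
    constructor
    · intro l hl
      by_cases hlc : (l : ℤ) ∣ c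
      · refine ⟨1, ?_⟩
        intro a hd
        obtain ⟨x, hx, he⟩ := hform f hf a
        rw [he] at hd
        have h2 : (l : ℤ) ∣ (s (g (finProdFinEquiv.symm a).1 * x) : ℤ) := by
          have h3 := (Int.dvd_add_left hlc).1 hd
          simpa using h3
        exact (hs _ (hmemS _ _ x hx)).2.2 l hl hlc (by exact_mod_cast h2)
      · refine ⟨0, ?_⟩
        intro a hd
        obtain ⟨x, hx, he⟩ := hform f hf a
        rw [he] at hd
        apply hlc
        simpa using hd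
    · intro a b hab
      obtain ⟨x, hx, hea⟩ := hform f hf a
      obtain ⟨y, hy, heb⟩ := hform f hf b
      rw [hea, heb] at hab
      have h2 := hsinj _ (hmemS _ _ x hx) _ (hmemS _ _ y hy) (Prod.ext_iff.1 hab).1
      by_contra hne
      by_cases hp : (finProdFinEquiv.symm a).1 = (finProdFinEquiv.symm b).1
      · by_cases hi : (finProdFinEquiv.symm a).2 = (finProdFinEquiv.symm b).2
        · exact hne (finProdFinEquiv.symm.injective (Prod.ext hp hi))
        · rw [hp] at h2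
          have h3 := mul_left_cancel h2
          rw [h3] at hx
          exact Finset.disjoint_left.1 (hdis _ _ hi) hx hy
      · exact hcoll _ _ hp _ _ x hx y hy h2)
  choose y hy hfy using hform f hf
  have hsy := fun a => hs _ (hmemS (finProdFinEquiv.symm a).1 (finProdFinEquiv.symm a).2 (y a) (hy a))
  by_cases hA : ∃ a b, (finProdFinEquiv.symm a).1 ≠ (finProdFinEquiv.symm b).1 ∧
      ∀ N : ℕ, ∃ n ≥ N, (ev (f a) n).Prime ∧ (ev (f b) n).Prime
  · right
    obtain ⟨a, b, hab, hN⟩ := hA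
    refine ⟨_, _, hab, _, _, y a, hy a, y b, hy b, ?_⟩
    rw [hfy a, hfy b] at hN
    have h2 := hg3 c _ _ (hsy a).2.1 (hsy b).2.1 hN
    rw [(hsy a).1, (hsy b).1, mul_div_mul_left _ _ hDq] at h2
    rw [Units.val_div_eq_div_val]
    exact h2
  push Not at hA
  left
  -- the bounds
  have hA' : ∀ a b, ∃ N : ℕ, (finProdFinEquiv.symm a).1 ≠ (finProdFinEquiv.symm b).1 → ∀ n ≥ N,
      (ev (f a) n).Prime → ¬ (ev (f b) n).Prime := by
    intro a b
    by_cases hab : (finProdFinEquiv.symm a).1 ≠ (finProdFinEquiv.symm b).1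
    · obtain ⟨N, hN⟩ := hA a b hab
      exact ⟨N, fun _ => hN⟩
    · exact ⟨0, fun h => absurd h hab⟩
  choose NN hNN using hA'
  let N0 : ℕ := Finset.univ.sup fun a => Finset.univ.sup fun b => NN a b
  have hN0 : ∀ a b, NN a b ≤ N0 := by
    intro a b
    have g1 : NN a b ≤ Finset.univ.sup fun b => NN a b := Finset.le_sup (f := fun b => NN a b) (Finset.mem_univ b)
    have g2 : (Finset.univ.sup fun b => NN a b) ≤ N0 :=
      Finset.le_sup (f := fun a => Finset.univ.sup fun b => NN a b) (Finset.mem_univ a)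
    exact g1.trans g2
  have hkm : (0 : ℝ) < (1 / 4 + 1 / 500000 : ℝ) * ((m * k : ℕ) : ℝ) := by
    have : 0 < m * k := Nat.mul_pos hm hk
    have : (0 : ℝ) < ((m * k : ℕ) : ℝ) := by exact_mod_cast this
    positivity
  have hone : ∃ p : Fin m, ∀ N : ℕ, ∃ n ≥ N, (1 / 4 + 1 / 500000 : ℝ) * ((m * k : ℕ) : ℝ) <
      (#{i : Fin k | (ev (f (finProdFinEquiv (p, i))) n).Prime} : ℝ) := by
    by_contra hcon
    push Not at hcon
    choose M hM using hcon
    obtain ⟨n, hn, hbig⟩ := hmany (max N0 (Finset.univ.sup M))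
    have hhits : 0 < hits f n := by
      have := hkm.trans hbig
      exact_mod_cast this
    obtain ⟨a, ha⟩ := Finset.card_pos.1 hhits
    have ha' : (ev (f a) n).Prime := (Finset.mem_filter.1 ha).2
    have hMn : M (finProdFinEquiv.symm a).1 ≤ n :=
      (Finset.le_sup (f := M) (Finset.mem_univ _)).trans ((le_max_right _ _).trans hn)
    have h2 := hM (finProdFinEquiv.symm a).1 n hMn
    have h3 : hits f n ≤ #{i : Fin k | (ev (f (finProdFinEquiv ((finProdFinEquiv.symm a).1, i))) n).Prime} := by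
      have h4 : ({b : Fin (m * k) | (ev (f b) n).Prime} : Finset (Fin (m * k))) ⊆
          ({i : Fin k | (ev (f (finProdFinEquiv ((finProdFinEquiv.symm a).1, i))) n).Prime} : Finset (Fin k)).image
            fun i => finProdFinEquiv ((finProdFinEquiv.symm a).1, i) := by
        intro b hb
        have hb' : (ev (f b) n).Prime := (Finset.mem_filter.1 hb).2
        have hpe : (finProdFinEquiv.symm a).1 = (finProdFinEquiv.symm b).1 := by
          by_contra hne
          exact hNN a b hne n ((hN0 a b).trans ((le_max_left _ _).trans hn)) ha' hb'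
        have hbe : finProdFinEquiv ((finProdFinEquiv.symm a).1, (finProdFinEquiv.symm b).2) = b := by
          rw [hpe]
          exact finProdFinEquiv.apply_symm_apply b
        refine Finset.mem_image.2 ⟨(finProdFinEquiv.symm b).2, ?_, hbe⟩
        rw [Finset.mem_filter, hbe]
        exact ⟨Finset.mem_univ _, hb'⟩
      exact (Finset.card_le_card h4).trans Finset.card_image_le
    have h5 : (hits f n : ℝ) ≤ (#{i : Fin k | (ev (f (finProdFinEquiv ((finProdFinEquiv.symm a).1, i))) n).Prime} : ℝ) := by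
      exact_mod_cast h3
    linarith
  obtain ⟨p, hp⟩ := hone
  have hyp : ∀ i, y (finProdFinEquiv (p, i)) ∈ X i := by
    intro i
    have := hy (finProdFinEquiv (p, i))
    rwa [Equiv.symm_apply_apply] at this
  refine ⟨fun i => y (finProdFinEquiv (p, i)), hyp, ?_⟩
  intro B
  have hgp : 0 < (g p : ℚ) := (hg p).1
  have hDg : 0 < (D : ℚ) * (g p : ℚ) := mul_pos (by exact_mod_cast hD0) hgp
  obtain ⟨n, hn, hbig⟩ := hp ⌈(B : ℚ) / ((D : ℚ) * (g p : ℚ))⌉₊
  refine ⟨(D : ℚ) * (g p : ℚ) * n, ?_, ?_⟩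
  · have g1 : (B : ℚ) / ((D : ℚ) * (g p : ℚ)) ≤ n := (Nat.le_ceil _).trans (by exact_mod_cast hn)
    rw [div_le_iff₀ hDg] at g1
    linarith
  · have hsub : ((({i : Fin k | (ev (f (finProdFinEquiv (p, i))) n).Prime} : Finset (Fin k)) : Set (Fin k))) ⊆
        {i : Fin k | ∃ q : ℕ, q.Prime ∧ ((y (finProdFinEquiv (p, i)) : ℚˣ) : ℚ) * ((D : ℚ) * (g p : ℚ) * n) + c = q} := by
      intro i hi
      have hi' : (ev (f (finProdFinEquiv (p, i))) n).Prime := (Finset.mem_filter.1 (Finset.mem_coe.1 hi)).2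
      refine ⟨ev (f (finProdFinEquiv (p, i))) n, hi', ?_⟩
      have g1 := hfy (finProdFinEquiv (p, i))
      have g2 := (hsy (finProdFinEquiv (p, i))).1
      rw [Equiv.symm_apply_apply] at g1 g2
      have g3 : (0 : ℤ) < ((f (finProdFinEquiv (p, i))).1 : ℤ) * n + (f (finProdFinEquiv (p, i))).2 := by
        have g4 := hi'.pos
        unfold ev at g4
        omega
      have g5 : ((ev (f (finProdFinEquiv (p, i))) n : ℕ) : ℤ) =
          ((f (finProdFinEquiv (p, i))).1 : ℤ) * n + (f (finProdFinEquiv (p, i))).2 := by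
        unfold ev
        exact Int.toNat_of_nonneg g3.le
      have g6 : ((ev (f (finProdFinEquiv (p, i))) n : ℕ) : ℚ) =
          ((f (finProdFinEquiv (p, i))).1 : ℚ) * n + (f (finProdFinEquiv (p, i))).2 := by
        exact_mod_cast g5
      rw [g6, g1]
      show _ = (s (g p * y (finProdFinEquiv (p, i))) : ℚ) * n + (c : ℚ)
      rw [g2, Units.val_mul]
      ring
    have hcard : #{i : Fin k | (ev (f (finProdFinEquiv (p, i))) n).Prime} ≤
        {i : Fin k | ∃ q : ℕ, q.Prime ∧ ((y (finProdFinEquiv (p, i)) : ℚˣ) : ℚ) * ((D : ℚ) * (g p : ℚ) * n) + c = q}.ncard := by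
      rw [← Set.ncard_coe_finset]
      exact Set.ncard_le_ncard hsub (Set.toFinite _)
    have hcard' : (#{i : Fin k | (ev (f (finProdFinEquiv (p, i))) n).Prime} : ℝ) ≤
        ({i : Fin k | ∃ q : ℕ, q.Prime ∧ ((y (finProdFinEquiv (p, i)) : ℚˣ) : ℚ) * ((D : ℚ) * (g p : ℚ) * n) + c = q}.ncard : ℝ) := by
      exact_mod_cast hcard
    refine lt_of_lt_of_le ?_ hcard'
    push_cast at hbig
    have e : (m : ℝ) * (1 / 4 + 1 / 500000) * k = (1 / 4 + 1 / 500000) * ((m : ℝ) * k) := by ring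
    rw [e]
    exact hbig

end Pool.Agent.AT
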